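import Mathlib

set_option autoImplicit false

open MeasureTheory Filter Topology
open scoped ENNReal

namespace Pool.Agent.Results.MP_916daf_an.NoWeight

variable {Ω : Type} [MeasurableSpace Ω] {μ : Measure Ω}

/-- The Hilbert space `L²(Ω, μ)` of complex valued functions. -/
def L2 (μ : Measure Ω) : Type := Lp ℂ 2 μ

noncomputable instance instGroup : NormedAddCommGroup (L2 μ) :=
  inferInstanceAs (NormedAddCommGroup (Lp ℂ 2 μ))

noncomputable instance instInner : InnerProductSpace ℂ (L2 μ) :=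
  inferInstanceAs (InnerProductSpace ℂ (Lp ℂ 2 μ))

instance instComplete : CompleteSpace (L2 μ) := inferInstanceAs (CompleteSpace (Lp ℂ 2 μ))

/-- The function underlying an element of `L²(Ω, μ)`. -/
noncomputable def fn (f : L2 μ) : Ω → ℂ := (show Lp ℂ 2 μ from f)

/-- `a` is sesquilinear on `V`: linear in the first, antilinear in the second argument. -/
structure Sesquilinear (V : Submodule ℂ (L2 μ)) (a : L2 μ → L2 μ → ℂ) : Prop where
  add_left : ∀ u ∈ V, ∀ u' ∈ V, ∀ v ∈ V, a (u + u') v = a u v + a u' v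
  smul_left : ∀ (c : ℂ), ∀ u ∈ V, ∀ v ∈ V, a (c • u) v = c * a u v
  add_right : ∀ u ∈ V, ∀ v ∈ V, ∀ v' ∈ V, a u (v + v') = a u v + a u v'
  smul_right : ∀ (c : ℂ), ∀ u ∈ V, ∀ v ∈ V, a u (c • v) = (starRingEnd ℂ) c * a u v

/-- Sectoriality: all values `a(u,u)` lie in a closed sector `|arg z| ≤ θ` with `θ < π/2`. -/
def Sectorial (V : Submodule ℂ (L2 μ)) (a : L2 μ → L2 μ → ℂ) : Prop :=
  ∃ θ : ℝ, 0 ≤ θ ∧ θ < Real.pi / 2 ∧ ∀ u ∈ V, a u u = 0 ∨ |(a u u).arg| ≤ θ

/-- The square of the form norm: `Re a(u,u) + ‖u‖²`. -/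
noncomputable def formNormSq (a : L2 μ → L2 μ → ℂ) (u : L2 μ) : ℝ :=
  (a u u).re + ‖u‖ ^ 2

/-- `V` is complete for the norm `(Re a(u,u) + ‖u‖²)^(1/2)`. -/
def ClosedForm (V : Submodule ℂ (L2 μ)) (a : L2 μ → L2 μ → ℂ) : Prop :=
  ∀ u : ℕ → L2 μ, (∀ n, u n ∈ V) →
    (∀ ε > 0, ∃ N, ∀ m ≥ N, ∀ n ≥ N, formNormSq a (u m - u n) < ε) →
    ∃ w ∈ V, ∀ ε > 0, ∃ N, ∀ n ≥ N, formNormSq a (u n - w) < ε

/-- A densely defined closed sectorial form `a` with domain `V` on `L²(Ω, μ)`. -/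
structure IsClosedSectorialForm (V : Submodule ℂ (L2 μ)) (a : L2 μ → L2 μ → ℂ) : Prop where
  dense : Dense (V : Set (L2 μ))
  sesquilinear : Sesquilinear V a
  sectorial : Sectorial V a
  closed : ClosedForm V a

/-- The operator `A` associated with the form: `u ∈ D(A)` and `A u = h`. Note that Mathlib's
`inner ℂ v h` is `∫ h * conj v`. -/
def Op (V : Submodule ℂ (L2 μ)) (a : L2 μ → L2 μ → ℂ) (u h : L2 μ) : Prop :=
  u ∈ V ∧ ∀ v ∈ V, a u v = inner ℂ v h

/-- `(T t)_{t ≥ 0}` is the `C₀`-semigroup on `L²(Ω, μ)` with generator `-A`. -/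
structure IsSemigroup (V : Submodule ℂ (L2 μ)) (a : L2 μ → L2 μ → ℂ)
    (T : ℝ → L2 μ → L2 μ) : Prop where
  bounded : ∀ t : ℝ, 0 ≤ t → IsBoundedLinearMap ℂ (T t)
  zero : ∀ f, T 0 f = f
  add : ∀ s t : ℝ, 0 ≤ s → 0 ≤ t → ∀ f, T (s + t) f = T s (T t f)
  cont : ∀ f, ContinuousOn (fun t => T t f) (Set.Ici 0)
  gen : ∀ u h, Op V a u h ↔ Tendsto (fun t : ℝ => (1 / t) • (u - T t u)) (𝓝[>] 0) (𝓝 h)

/-- A densely defined closed sectorial form together with its semigroup. -/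
structure FormSemigroup (μ : Measure Ω) where
  V : Submodule ℂ (L2 μ)
  a : L2 μ → L2 μ → ℂ
  T : ℝ → L2 μ → L2 μ
  isForm : IsClosedSectorialForm V a
  isSemigroup : IsSemigroup V a T

/-- `L^∞`-boundedness. (If `f` is not in `L^∞` the inequality is trivial.) -/
def LinftyBounded (T : ℝ → L2 μ → L2 μ) : Prop :=
  ∃ M : ℝ, 1 ≤ M ∧ ∀ t : ℝ, 0 ≤ t → ∀ f : L2 μ,
    eLpNorm (fn (T t f)) ∞ μ ≤ ENNReal.ofReal M * eLpNorm (fn f) ∞ μ

/-- Admissible weights: `g ∈ L^∞`, `g > 0` a.e., `1/g ∈ L^∞`. -/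
def Admissible (μ : Measure Ω) (g : Ω → ℝ) : Prop :=
  Measurable g ∧ MemLp g ∞ μ ∧ (∀ᵐ x ∂μ, 0 < g x) ∧ MemLp (fun x => 1 / g x) ∞ μ

/-- Contractivity for the weight `g`. -/
def ContractiveFor (g : Ω → ℝ) (T : ℝ → L2 μ → L2 μ) : Prop :=
  ∀ t : ℝ, 0 ≤ t → ∀ f : L2 μ, eLpNorm (fn f) ∞ μ < ∞ →
    eLpNorm (fun x => (g x : ℂ) * fn (T t f) x) ∞ μ ≤ eLpNorm (fun x => (g x : ℂ) * fn f x) ∞ μ

/-! ### The two-point space -/

/-- The counting measure on the two-point space. -/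
noncomputable abbrev ν : Measure (Fin 2) := Measure.count

theorem all_of_ae {p : Fin 2 → Prop} (h : ∀ᵐ x ∂ν, p x) : ∀ x, p x := by
  have h1 := ae_iff.1 h
  have h2 := Measure.count_eq_zero_iff.1 h1
  intro x
  by_contra hx
  have : x ∈ ({x | ¬ p x} : Set (Fin 2)) := hx
  rw [h2] at this
  exact this

theorem ext_two {f g : L2 ν} (h0 : fn f 0 = fn g 0) (h1 : fn f 1 = fn g 1) : f = g := by
  apply Lp.ext (f := (show Lp ℂ 2 ν from f)) (g := (show Lp ℂ 2 ν from g))
  refine Eventually.of_forall fun x => ?_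
  fin_cases x
  · exact h0
  · exact h1

theorem coe_add (f g : L2 ν) (x : Fin 2) : fn (f + g) x = fn f x + fn g x :=
  all_of_ae (Lp.coeFn_add (show Lp ℂ 2 ν from f) (show Lp ℂ 2 ν from g)) x

theorem coe_sub (f g : L2 ν) (x : Fin 2) : fn (f - g) x = fn f x - fn g x :=
  all_of_ae (Lp.coeFn_sub (show Lp ℂ 2 ν from f) (show Lp ℂ 2 ν from g)) x

theorem coe_neg (f : L2 ν) (x : Fin 2) : fn (-f) x = -fn f x :=
  all_of_ae (Lp.coeFn_neg (show Lp ℂ 2 ν from f)) x

theorem coe_smul (c : ℂ) (f : L2 ν) (x : Fin 2) : fn (c • f) x = c * fn f x :=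
  all_of_ae (Lp.coeFn_smul c (show Lp ℂ 2 ν from f)) x

theorem inner_two (f g : L2 ν) :
    inner ℂ f g = (starRingEnd ℂ) (fn f 0) * fn g 0 + (starRingEnd ℂ) (fn f 1) * fn g 1 := by
  have h := L2.inner_def (𝕜 := ℂ) (show Lp ℂ 2 ν from f) (show Lp ℂ 2 ν from g)
  rw [integral_count, Fin.sum_univ_two] at h
  refine h.trans ?_
  simp [mul_comm, fn]

theorem norm_two (f : L2 ν) : ‖f‖ ^ 2 = ‖fn f 0‖ ^ 2 + ‖fn f 1‖ ^ 2 := by
  have h := inner_self_eq_norm_sq (𝕜 := ℂ) f
  have h2 : ∀ z : ℂ, ((starRingEnd ℂ) z * z).re = ‖z‖ ^ 2 := by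
    intro z
    rw [← Complex.normSq_eq_conj_mul_self, Complex.ofReal_re, Complex.normSq_eq_norm_sq]
  rw [inner_two] at h
  rw [← h, ← h2 (fn f 0), ← h2 (fn f 1), ← Complex.add_re]
  rfl

/-- the element of `L²` with given values -/
noncomputable def mk (a b : ℂ) : L2 ν :=
  MemLp.toLp (fun x : Fin 2 => if x = 0 then a else b) (by
    apply MemLp.of_discrete)

theorem mk_zero (a b : ℂ) : fn (mk a b) 0 = a := by
  have := all_of_ae (MemLp.coeFn_toLp (MemLp.of_discrete (μ := ν) (p := 2)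
    (f := fun x : Fin 2 => if x = 0 then a else b))) 0
  exact this.trans (if_pos rfl)

theorem mk_one (a b : ℂ) : fn (mk a b) 1 = b := by
  have := all_of_ae (MemLp.coeFn_toLp (MemLp.of_discrete (μ := ν) (p := 2)
    (f := fun x : Fin 2 => if x = 0 then a else b))) 1
  exact this.trans (if_neg (by decide))

/-- the rotation by a right angle -/
noncomputable def J : L2 ν →L[ℂ] L2 ν :=
  LinearMap.mkContinuous
    { toFun := fun f => mk (-(fn f 1)) (fn f 0)
      map_add' := by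
        intro f g
        apply ext_two
        · rw [coe_add (mk _ _), mk_zero, mk_zero, mk_zero, coe_add f g]; ring
        · rw [coe_add (mk _ _), mk_one, mk_one, mk_one, coe_add f g]
      map_smul' := by
        intro c f
        apply ext_two
        · rw [RingHom.id_apply, coe_smul c (mk _ _), mk_zero, mk_zero, coe_smul c f]; ring
        · rw [RingHom.id_apply, coe_smul c (mk _ _), mk_one, mk_one, coe_smul c f] } 1 (by
    intro f
    rw [one_mul]
    apply le_of_sq_le_sq _ (norm_nonneg _)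
    rw [norm_two, norm_two]
    simp only [LinearMap.coe_mk, AddHom.coe_mk, mk_zero, mk_one, norm_neg]
    linarith)

theorem J_zero (f : L2 ν) : fn (J f) 0 = -(fn f 1) := mk_zero _ _
theorem J_one (f : L2 ν) : fn (J f) 1 = fn f 0 := mk_one _ _

theorem J_sq : J * J = -1 := by
  ext1 f
  apply ext_two
  · change fn (J (J f)) 0 = fn (-f) 0
    rw [J_zero, J_one, coe_neg]
  · change fn (J (J f)) 1 = fn (-f) 1
    rw [J_one, J_zero, coe_neg]

/-- the semigroup `T(t) = exp(-t (1 + 2J))` -/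
noncomputable def T (t : ℝ) : L2 ν →L[ℂ] L2 ν :=
  ((Real.exp (-t) * Real.cos (2 * t) : ℝ) : ℂ) • 1 -
    ((Real.exp (-t) * Real.sin (2 * t) : ℝ) : ℂ) • J

theorem T_zero : T 0 = 1 := by simp [T]

theorem T_add (s t : ℝ) : T (s + t) = T s * T t := by
  have h1 : T s * T t =
      (((Real.exp (-s) * Real.cos (2 * s)) * (Real.exp (-t) * Real.cos (2 * t)) : ℝ) : ℂ) • 1 -
      (((Real.exp (-s) * Real.cos (2 * s)) * (Real.exp (-t) * Real.sin (2 * t)) +
        (Real.exp (-s) * Real.sin (2 * s)) * (Real.exp (-t) * Real.cos (2 * t)) : ℝ) : ℂ) • J +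
      (((Real.exp (-s) * Real.sin (2 * s)) * (Real.exp (-t) * Real.sin (2 * t)) : ℝ) : ℂ) •
        (J * J) := by
    unfold T
    rw [sub_mul, mul_sub, mul_sub]
    simp only [smul_mul_assoc, mul_smul_comm, one_mul, mul_one, smul_smul]
    push_cast
    module
  rw [h1, J_sq]
  unfold T
  rw [mul_add, Real.cos_add, Real.sin_add]
  have h2 : Real.exp (-(s + t)) = Real.exp (-s) * Real.exp (-t) := by
    rw [← Real.exp_add]; congr 1; ring
  rw [h2]
  push_cast
  module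

theorem T_apply (t : ℝ) (f : L2 ν) : T t f =
    ((Real.exp (-t) * Real.cos (2 * t) : ℝ) : ℂ) • f -
    ((Real.exp (-t) * Real.sin (2 * t) : ℝ) : ℂ) • J f := by
  simp [T]

theorem T_apply_zero (t : ℝ) (f : L2 ν) : fn (T t f) 0 =
    ((Real.exp (-t) : ℝ) : ℂ) * ((Real.cos (2 * t) : ℝ) * fn f 0 +
      (Real.sin (2 * t) : ℝ) * fn f 1) := by
  rw [T_apply, coe_sub, coe_smul, coe_smul, J_zero]
  push_cast
  ring

theorem T_apply_one (t : ℝ) (f : L2 ν) : fn (T t f) 1 =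
    ((Real.exp (-t) : ℝ) : ℂ) * ((Real.cos (2 * t) : ℝ) * fn f 1 -
      (Real.sin (2 * t) : ℝ) * fn f 0) := by
  rw [T_apply, coe_sub, coe_smul, coe_smul, J_one]
  push_cast
  ring

/-- the generator: derivative at `0` -/
theorem T_gen (u : L2 ν) : Tendsto (fun t : ℝ => (1 / t) • (u - T t u)) (𝓝[>] 0)
    (𝓝 (u + (2 : ℂ) • J u)) := by
  have hc : HasDerivAt (fun t : ℝ => Real.exp (-t) * Real.cos (2 * t)) (-1) 0 := by
    have h1 : HasDerivAt (fun t : ℝ => Real.exp (-t)) (Real.exp (-0) * (-1)) 0 :=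
      (hasDerivAt_neg (0 : ℝ)).exp
    have h2 : HasDerivAt (fun t : ℝ => Real.cos (2 * t)) (-Real.sin (2 * 0) * (2 * 1)) 0 :=
      ((hasDerivAt_id (0 : ℝ)).const_mul 2).cos
    refine (h1.mul h2).congr_deriv ?_
    simp
  have hs : HasDerivAt (fun t : ℝ => Real.exp (-t) * Real.sin (2 * t)) 2 0 := by
    have h1 : HasDerivAt (fun t : ℝ => Real.exp (-t)) (Real.exp (-0) * (-1)) 0 :=
      (hasDerivAt_neg (0 : ℝ)).exp
    have h2 : HasDerivAt (fun t : ℝ => Real.sin (2 * t)) (Real.cos (2 * 0) * (2 * 1)) 0 :=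
      ((hasDerivAt_id (0 : ℝ)).const_mul 2).sin
    refine (h1.mul h2).congr_deriv ?_
    simp
  have hc' := hasDerivAt_iff_tendsto_slope.1 hc
  have hs' := hasDerivAt_iff_tendsto_slope.1 hs
  have hle : (𝓝[>] (0 : ℝ)) ≤ 𝓝[≠] 0 :=
    nhdsWithin_mono _ (fun x hx => ne_of_gt hx)
  have h1 := (hc'.mono_left hle).neg.smul_const u
  have h2 := (hs'.mono_left hle).smul_const (J u)
  have h3 := h1.add h2
  have e : (- -1 : ℝ) • u + (2 : ℝ) • J u = u + (2 : ℂ) • J u := by
    have : (2 : ℂ) • J u = (2 : ℝ) • J u := by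
      have h2c : (2 : ℂ) = ((2 : ℝ) : ℂ) := by norm_num
      rw [h2c]
      exact Complex.coe_smul _ _
    rw [this]; simp
  rw [e] at h3
  refine h3.congr' ?_
  filter_upwards [self_mem_nhdsWithin] with t ht
  have ht' : t ≠ 0 := ne_of_gt ht
  rw [T_apply]
  simp only [slope_def_field]
  have hcs : ∀ (c : ℝ) (v : L2 ν), ((c : ℝ) : ℂ) • v = c • v := fun c v =>
    Complex.coe_smul _ _
  rw [hcs, hcs]
  simp only [mul_zero, Real.cos_zero, Real.sin_zero, neg_zero, Real.exp_zero, mul_one, sub_zero]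
  rw [smul_sub, smul_sub, smul_smul, smul_smul]
  have e1 : -((Real.exp (-t) * Real.cos (2 * t) - 1) / t) =
      1 / t - 1 / t * (Real.exp (-t) * Real.cos (2 * t)) := by field_simp; ring
  rw [e1, sub_smul]
  have e2 : Real.exp (-t) * Real.sin (2 * t) / t =
      1 / t * (Real.exp (-t) * Real.sin (2 * t)) := by ring
  rw [e2]
  abel

theorem J_skew (u : L2 ν) : (inner ℂ u (J u)).re = 0 := by
  rw [inner_two, J_zero, J_one]
  simp only [Complex.add_re, Complex.mul_re, Complex.conj_re, Complex.conj_im, Complex.neg_re,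
    Complex.neg_im]
  ring

/-- the form `a(u,v) = ⟨(1 + 2J)u, v⟩` on the whole space -/
noncomputable def a (u v : L2 ν) : ℂ := inner ℂ v (u + (2 : ℂ) • J u)

theorem a_re (u : L2 ν) : (a u u).re = ‖u‖ ^ 2 := by
  unfold a
  rw [inner_add_right, inner_smul_right, inner_self_eq_norm_sq_to_K]
  have := J_skew u
  have h2 : ((2 : ℂ) * inner ℂ u (J u)).re = 0 := by simp [this]
  rw [Complex.add_re, h2, add_zero]
  norm_cast

theorem a_sesq : Sesquilinear ⊤ a where
  add_left := by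
    intro u _ u' _ v _
    unfold a
    rw [← inner_add_right]
    congr 1
    simp only [map_add, smul_add]
    abel
  smul_left := by
    intro c u _ v _
    unfold a
    simp only [map_smul]
    rw [smul_comm (2 : ℂ) c, ← smul_add, inner_smul_right]
  add_right := by
    intro u _ v _ v' _
    unfold a
    rw [inner_add_left]
  smul_right := by
    intro c u _ v _
    unfold a
    rw [inner_smul_left]

theorem a_sectorial : Sectorial ⊤ a := by
  refine ⟨Real.arcsin (9 / 10), Real.arcsin_nonneg.2 (by norm_num),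
    Real.arcsin_lt_pi_div_two.2 (by norm_num), fun u _ => Or.inr ?_⟩
  set z : ℂ := a u u with hz
  have hre : z.re = ‖u‖ ^ 2 := a_re u
  have hJn : ‖J u‖ ≤ ‖u‖ := by
    apply le_of_sq_le_sq _ (norm_nonneg _)
    rw [norm_two, norm_two, J_zero, J_one, norm_neg]
    linarith
  have him : |z.im| ≤ 2 * ‖u‖ ^ 2 := by
    have h1 : z.im = 2 * (inner ℂ u (J u)).im := by
      rw [hz]
      unfold a
      rw [inner_add_right, inner_smul_right, Complex.add_im]
      have h0 : (inner ℂ u u).im = 0 := by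
        have := inner_self_im (𝕜 := ℂ) u
        exact this
      rw [h0]; simp
    rw [h1, abs_mul, abs_of_pos (by norm_num : (0 : ℝ) < 2)]
    have h2 := (Complex.abs_im_le_norm (inner ℂ u (J u))).trans (norm_inner_le_norm _ _)
    nlinarith [norm_nonneg u]
  have hre0 : 0 ≤ z.re := by rw [hre]; positivity
  rw [Complex.arg_of_re_nonneg hre0]
  have him2 : z.im ^ 2 ≤ 4 * z.re ^ 2 := by
    rw [hre]
    nlinarith [sq_abs z.im, abs_nonneg z.im, sq_nonneg (‖u‖ ^ 2)]
  have hfrac : |z.im / ‖z‖| ≤ 9 / 10 := by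
    rcases eq_or_lt_of_le (norm_nonneg z) with h0 | h0
    · rw [← h0]; simp; norm_num
    · rw [abs_div, abs_norm, div_le_iff₀ h0]
      apply le_of_sq_le_sq _ (by positivity)
      have h3 : ‖z‖ ^ 2 = z.re ^ 2 + z.im ^ 2 := by
        rw [Complex.sq_norm, Complex.normSq_apply]; ring
      rw [sq_abs, mul_pow, h3]
      nlinarith
  rw [abs_le] at hfrac ⊢
  constructor
  · rw [← Real.arcsin_neg]
    exact Real.arcsin_le_arcsin hfrac.1
  · exact Real.arcsin_le_arcsin hfrac.2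

theorem a_closed : ClosedForm ⊤ a := by
  intro u _ hu
  simp only [formNormSq, a_re] at hu ⊢
  have hcau : CauchySeq u := by
    rw [Metric.cauchySeq_iff]
    intro ε hε
    obtain ⟨N, hN⟩ := hu (ε ^ 2) (by positivity)
    refine ⟨N, fun m hm n hn => ?_⟩
    have h1 := hN m hm n hn
    rw [dist_eq_norm]
    apply lt_of_pow_lt_pow_left₀ 2 hε.le
    nlinarith [sq_nonneg ‖u m - u n‖]
  obtain ⟨w, hw⟩ := cauchySeq_tendsto_of_complete hcau
  refine ⟨w, trivial, fun ε hε => ?_⟩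
  have h1 : Tendsto (fun n => ‖u n - w‖ ^ 2 + ‖u n - w‖ ^ 2) atTop (𝓝 0) := by
    have h2 : Tendsto (fun n => ‖u n - w‖) atTop (𝓝 0) := by
      have := (hw.sub_const w).norm
      simpa using this
    simpa using (h2.pow 2).add (h2.pow 2)
  have h3 := (tendsto_order.1 h1).2 ε hε
  obtain ⟨N, hN⟩ := eventually_atTop.1 h3
  exact ⟨N, fun n hn => by simpa using hN n hn⟩

theorem a_form : IsClosedSectorialForm ⊤ a where
  dense := by simp
  sesquilinear := a_sesq
  sectorial := a_sectorial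
  closed := a_closed

theorem a_op (u h : L2 ν) : Op ⊤ a u h ↔ u + (2 : ℂ) • J u = h := by
  constructor
  · rintro ⟨hu, hv⟩
    have h1 : ∀ v : L2 ν, inner ℂ v (u + (2 : ℂ) • J u) = inner ℂ v h := fun v =>
      hv v trivial
    exact ext_inner_left ℂ h1
  · rintro rfl
    exact ⟨trivial, fun v _ => rfl⟩

theorem a_semigroup : IsSemigroup ⊤ a (fun t f => T t f) where
  bounded := fun t _ => (T t).isBoundedLinearMap
  zero := fun f => by rw [T_zero]; rfl
  add := fun s t _ _ f => by rw [T_add]; rfl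
  cont := by
    intro f
    apply Continuous.continuousOn
    simp only [T_apply]
    fun_prop
  gen := by
    intro u h
    rw [a_op]
    constructor
    · rintro rfl
      exact T_gen u
    · intro hh
      exact tendsto_nhds_unique (T_gen u) hh

theorem norm_le_of {f : Fin 2 → ℂ} {c : ℝ≥0∞} (h0 : ‖f 0‖ₑ ≤ c) (h1 : ‖f 1‖ₑ ≤ c) :
    eLpNorm f ∞ ν ≤ c := by
  rw [eLpNorm_exponent_top, eLpNormEssSup_count]
  apply iSup_le
  intro x
  fin_cases x
  · exact h0
  · exact h1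

theorem le_norm (f : Fin 2 → ℂ) (x : Fin 2) : ‖f x‖ₑ ≤ eLpNorm f ∞ ν := by
  rw [eLpNorm_exponent_top, eLpNormEssSup_count]
  exact le_iSup (fun a => ‖f a‖ₑ) x

theorem T_bounded : LinftyBounded (μ := ν) (fun t f => T t f) := by
  refine ⟨2, by norm_num, fun t ht f => ?_⟩
  have he : Real.exp (-t) ≤ 1 := by
    rw [Real.exp_le_one_iff]; linarith
  have key : ∀ (c s : ℝ) (a b : ℂ), |c| ≤ 1 → |s| ≤ 1 →
      ‖((Real.exp (-t) : ℝ) : ℂ) * ((c : ℝ) * a + (s : ℝ) * b)‖ₑ ≤ ‖a‖ₑ + ‖b‖ₑ := by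
    intro c s a b hc hs
    rw [← ofReal_norm, ← ofReal_norm, ← ofReal_norm, ← ENNReal.ofReal_add (norm_nonneg _)
      (norm_nonneg _)]
    apply ENNReal.ofReal_le_ofReal
    rw [norm_mul, Complex.norm_real, Real.norm_of_nonneg (Real.exp_nonneg _)]
    have h1 : ‖((c : ℝ) : ℂ) * a + ((s : ℝ) : ℂ) * b‖ ≤ ‖a‖ + ‖b‖ := by
      refine (norm_add_le _ _).trans ?_
      rw [norm_mul, norm_mul, Complex.norm_real, Complex.norm_real, Real.norm_eq_abs,
        Real.norm_eq_abs]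
      nlinarith [norm_nonneg a, norm_nonneg b]
    nlinarith [norm_nonneg (((c : ℝ) : ℂ) * a + ((s : ℝ) : ℂ) * b), Real.exp_nonneg (-t)]
  have h2 : ENNReal.ofReal 2 * eLpNorm (fn f) ∞ ν = eLpNorm (fn f) ∞ ν + eLpNorm (fn f) ∞ ν := by
    rw [show ENNReal.ofReal 2 = 2 by simp, two_mul]
  rw [h2]
  apply norm_le_of
  · rw [T_apply_zero]
    exact (key _ _ _ _ (Real.abs_cos_le_one _) (Real.abs_sin_le_one _)).trans
      (add_le_add (le_norm (fn f) 0) (le_norm (fn f) 1))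
  · rw [T_apply_one]
    have e : ((Real.cos (2 * t) : ℝ) : ℂ) * fn f 1 - ((Real.sin (2 * t) : ℝ) : ℂ) * fn f 0 =
        ((Real.cos (2 * t) : ℝ) : ℂ) * fn f 1 + ((-Real.sin (2 * t) : ℝ) : ℂ) * fn f 0 := by
      push_cast; ring
    rw [e]
    exact (key _ _ _ _ (Real.abs_cos_le_one _) (by rw [abs_neg]; exact Real.abs_sin_le_one _)).trans
      (add_le_add (le_norm (fn f) 1) (le_norm (fn f) 0))

theorem numeric : 1 < Real.exp (-(1 / 4)) * (Real.cos (2 * (1 / 4)) + Real.sin (2 * (1 / 4))) := by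
  have h1 : 3 / 4 ≤ Real.exp (-(1 / 4)) := by
    have := Real.add_one_le_exp (-(1 / 4) : ℝ)
    linarith
  have h2 : 1 - (2 * (1 / 4) : ℝ) ^ 2 / 2 ≤ Real.cos (2 * (1 / 4)) :=
    Real.one_sub_sq_div_two_le_cos
  have h3 : (2 * (1 / 4) : ℝ) - (2 * (1 / 4)) ^ 3 / 4 < Real.sin (2 * (1 / 4)) :=
    by
    have := Real.sin_gt_sub_cube (x := 2 * (1 / 4)) (by norm_num)
    norm_num at this ⊢
    linarith
  have h4 : 1.34375 < Real.cos (2 * (1 / 4)) + Real.sin (2 * (1 / 4)) := by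
    norm_num at h2 h3 ⊢
    linarith
  nlinarith

theorem T_not_contractive (g : Fin 2 → ℝ) (hg : Admissible ν g) :
    ¬ ContractiveFor (μ := ν) g (fun t f => T t f) := by
  obtain ⟨-, -, hpos, -⟩ := hg
  have hp := all_of_ae hpos
  have hg0 := hp 0
  have hg1 := hp 1
  intro hcon
  have hcos : 0 ≤ Real.cos (2 * (1 / 4)) :=
    Real.cos_nonneg_of_neg_pi_div_two_le_of_le (by linarith [Real.pi_gt_three])
      (by linarith [Real.pi_gt_three])
  have hsin : 0 ≤ Real.sin (2 * (1 / 4)) :=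
    Real.sin_nonneg_of_nonneg_of_le_pi (by norm_num) (by linarith [Real.pi_gt_three])
  have hnum := numeric
  rcases le_total (g 1) (g 0) with h | h
  · have h1 := hcon (1 / 4) (by norm_num) (mk ((1 / g 0 : ℝ) : ℂ) ((1 / g 1 : ℝ) : ℂ)) (by
      refine lt_of_le_of_lt (norm_le_of (c := ‖((1 / g 0 : ℝ) : ℂ)‖ₑ + ‖((1 / g 1 : ℝ) : ℂ)‖ₑ)
        ?_ ?_) ?_
      · rw [mk_zero]; exact le_self_add
      · rw [mk_one]; exact le_add_self
      · exact ENNReal.add_lt_top.2 ⟨enorm_lt_top, enorm_lt_top⟩)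
    have h2 : eLpNorm (fun x => (g x : ℂ) * fn (mk ((1 / g 0 : ℝ) : ℂ) ((1 / g 1 : ℝ) : ℂ)) x) ∞ ν
        ≤ 1 := by
      apply norm_le_of
      · simp only [mk_zero]
        rw [← Complex.ofReal_mul, mul_one_div_cancel hg0.ne']; simp
      · simp only [mk_one]
        rw [← Complex.ofReal_mul, mul_one_div_cancel hg1.ne']; simp
    have h3 := (le_norm (fun x => (g x : ℂ) * fn (T (1 / 4) (mk ((1 / g 0 : ℝ) : ℂ)
      ((1 / g 1 : ℝ) : ℂ))) x) 0).trans (h1.trans h2)
    simp only [T_apply_zero, mk_zero, mk_one] at h3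
    rw [← Complex.ofReal_mul, ← Complex.ofReal_mul, ← Complex.ofReal_add, ← Complex.ofReal_mul,
      ← Complex.ofReal_mul, ← ofReal_norm, Complex.norm_real, ENNReal.ofReal_le_one] at h3
    have h4 := (le_abs_self _).trans h3
    have h5 : Real.exp (-(1 / 4)) * (Real.cos (2 * (1 / 4)) + Real.sin (2 * (1 / 4))) ≤
        g 0 * (Real.exp (-(1 / 4)) * (Real.cos (2 * (1 / 4)) * (1 / g 0) +
          Real.sin (2 * (1 / 4)) * (1 / g 1))) := by
      have e : g 0 * (Real.exp (-(1 / 4)) * (Real.cos (2 * (1 / 4)) * (1 / g 0) +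
          Real.sin (2 * (1 / 4)) * (1 / g 1))) =
          Real.exp (-(1 / 4)) * (Real.cos (2 * (1 / 4)) + Real.sin (2 * (1 / 4)) *
            (g 0 / g 1)) := by
        field_simp
      rw [e]
      have h6 : 1 ≤ g 0 / g 1 := (one_le_div hg1).2 h
      have h7 := Real.exp_nonneg (-(1 / 4))
      apply mul_le_mul_of_nonneg_left _ h7
      nlinarith
    linarith
  · have h1 := hcon (1 / 4) (by norm_num) (mk ((-(1 / g 0) : ℝ) : ℂ) ((1 / g 1 : ℝ) : ℂ)) (by
      refine lt_of_le_of_lt (norm_le_of (c := ‖((-(1 / g 0) : ℝ) : ℂ)‖ₑ + ‖((1 / g 1 : ℝ) : ℂ)‖ₑ)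
        ?_ ?_) ?_
      · rw [mk_zero]; exact le_self_add
      · rw [mk_one]; exact le_add_self
      · exact ENNReal.add_lt_top.2 ⟨enorm_lt_top, enorm_lt_top⟩)
    have h2 : eLpNorm (fun x => (g x : ℂ) * fn (mk ((-(1 / g 0) : ℝ) : ℂ) ((1 / g 1 : ℝ) : ℂ)) x) ∞ ν
        ≤ 1 := by
      apply norm_le_of
      · simp only [mk_zero]
        rw [← Complex.ofReal_mul, mul_neg, mul_one_div_cancel hg0.ne']; simp
      · simp only [mk_one]
        rw [← Complex.ofReal_mul, mul_one_div_cancel hg1.ne']; simp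
    have h3 := (le_norm (fun x => (g x : ℂ) * fn (T (1 / 4) (mk ((-(1 / g 0) : ℝ) : ℂ)
      ((1 / g 1 : ℝ) : ℂ))) x) 1).trans (h1.trans h2)
    simp only [T_apply_one, mk_zero, mk_one] at h3
    rw [← Complex.ofReal_mul, ← Complex.ofReal_mul, ← Complex.ofReal_sub, ← Complex.ofReal_mul,
      ← Complex.ofReal_mul, ← ofReal_norm, Complex.norm_real, ENNReal.ofReal_le_one] at h3
    have h4 := (le_abs_self _).trans h3
    have h5 : Real.exp (-(1 / 4)) * (Real.cos (2 * (1 / 4)) + Real.sin (2 * (1 / 4))) ≤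
        g 1 * (Real.exp (-(1 / 4)) * (Real.cos (2 * (1 / 4)) * (1 / g 1) -
          Real.sin (2 * (1 / 4)) * (-(1 / g 0)))) := by
      have e : g 1 * (Real.exp (-(1 / 4)) * (Real.cos (2 * (1 / 4)) * (1 / g 1) -
          Real.sin (2 * (1 / 4)) * (-(1 / g 0)))) =
          Real.exp (-(1 / 4)) * (Real.cos (2 * (1 / 4)) + Real.sin (2 * (1 / 4)) *
            (g 1 / g 0)) := by
        field_simp
        ring
      rw [e]
      have h6 : 1 ≤ g 1 / g 0 := (one_le_div hg0).2 h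
      have h7 := Real.exp_nonneg (-(1 / 4))
      apply mul_le_mul_of_nonneg_left _ h7
      nlinarith
    linarith

/-- **An `L^∞`-bounded form semigroup without weight.** On the two-point space with the counting
measure there is a densely defined closed sectorial form whose semigroup is `L^∞`-bounded but
contractive for no admissible weight. -/
theorem result : ∃ S : FormSemigroup ν, LinftyBounded S.T ∧
    ∀ g, Admissible ν g → ¬ ContractiveFor g S.T :=
  ⟨⟨⊤, a, fun t f => T t f, a_form, a_semigroup⟩, T_bounded, T_not_contractive⟩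

end Pool.Agent.Results.MP_916daf_an.NoWeight
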